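import Pool.Agent.Work.MP_375441_an.Hol.Main

/-!
# A Radó theorem for all elliptic operators in all dimensions, with a Hölder condition

For all `n`, `p ≥ 1` there is a function `a₀ < 1` of the top order coefficients at a point such
that the following holds. Let `X ⊂ ℝⁿ` be open and let `P = ∑_{|α| ≤ p} P_α(x) D^α` be an elliptic
operator on `X` with smooth complex coefficients, where `D_j = (1/√-1) ∂/∂x_j`. Let `O ⊂ X` be
open, `f ∈ C^{p-1}(O)`, and let `Pf = 0` on `O ∖ Z(f)` in the sense of distributions. Suppose that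
every point `x₀ ∈ O` where `f` vanishes together with all derivatives of order `< p` has a
neighbourhood `U` in which the derivatives of order `p - 1` satisfy `|D^{p-1} f(x)| ≤ K |x - z|^α`
for all `x`, `z` in `U` such that all derivatives of order `< p` vanish at `z`, with some exponent
`α > a₀(P_top(x₀))` (this is true in particular if `D^{p-1} f` is locally Hölder continuous with an
exponent above `a₀`). Then `Pf = 0` on `O`.

The definitions are in `Pool.Agent.Work.MP_375441_an.Defs`: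

* `Sp n` is `ℝⁿ`;
* `DD j g = (1/√-1) ∂g/∂x_j` and `Dpow α g = D^α g`;
* `multi n p` is the set of the multi-indices with `|α| ≤ p`;
* `transp p P φ = ∑_{|α| ≤ p} (-1)^{|α|} D^α (P_α φ)`;
* `Solves p P f U` says that `∫ f · ᵗPφ = 0` for every `φ ∈ C_c^∞(U)`;
* `Ellip p P X` says that `∑_{|α| = p} P_α(x) z^α ≠ 0` for `x ∈ X` and `z ∈ ℝⁿ ∖ {0}`.
-/

open Pool.Agent.Work.MP_375441_an
open scoped ContDiff Topology

namespace Pool.Agent.Results.MP_375441_an.HolderAll

/-- **A Radó theorem with a Hölder condition for arbitrary elliptic operators.** -/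
theorem result (n p : ℕ) (hp : 1 ≤ p) : ∃ a₀ : ((Fin n → ℕ) → ℂ) → ℝ, (∀ q, a₀ q < 1) ∧
    ∀ X : Set (Sp n), IsOpen X → ∀ P : (Fin n → ℕ) → Sp n → ℂ,
      (∀ α ∈ multi n p, ContDiffOn ℝ ∞ (P α) X) → Ellip p P X →
    ∀ O : Set (Sp n), IsOpen O → O ⊆ X → ∀ f : Sp n → ℂ,
      ContDiffOn ℝ ((p - 1 : ℕ) : WithTop ℕ∞) f O →
      (∀ x₀ ∈ O, (∀ k < p, iteratedFDeriv ℝ k f x₀ = 0) → ∃ α K : ℝ,
        a₀ (fun β => if ∑ i, β i = p then P β x₀ else 0) < α ∧ ∃ U ∈ 𝓝 x₀, ∀ z ∈ U,
          (∀ k < p, iteratedFDeriv ℝ k f z = 0) →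
          ∀ x ∈ U, ‖iteratedFDeriv ℝ (p - 1) f x‖ ≤ K * ‖x - z‖ ^ α) →
      Solves p P f (O \ {x | f x = 0}) → Solves p P f O :=
  Hol.main_H n p hp

end Pool.Agent.Results.MP_375441_an.HolderAll
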