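import Pool.Agent.Work.MP_375441_an.FinTwo

/-!
# A Radó theorem for elliptic operators in the plane

Let `X ⊂ ℝ²` be open and let `P = ∑_{|α| ≤ p} P_α(x) D^α` be an elliptic operator of order `p ≥ 1`
on `X` with real analytic complex-valued coefficients, where `D_j = (1/√-1) ∂/∂x_j`. Let `O ⊂ X`
be open and `f ∈ C^{p-1}(O)`. If `Pf = 0` on `O ∖ Z(f)` in the sense of distributions, then
`Pf = 0` on `O`.

The definitions are in `Pool.Agent.Work.MP_375441_an.Defs`: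

* `Sp n` is `ℝⁿ`;
* `DD j g = (1/√-1) ∂g/∂x_j` and `Dpow α g = D^α g`;
* `multi n p` is the set of the multi-indices with `|α| ≤ p`;
* `transp p P φ = ∑_{|α| ≤ p} (-1)^{|α|} D^α (P_α φ)`;
* `Solves p P f U` says that `∫ f · ᵗPφ = 0` for every `φ ∈ C_c^∞(U)`;
* `Ellip p P X` says that `∑_{|α| = p} P_α(x) z^α ≠ 0` for `x ∈ X` and `z ∈ ℝⁿ ∖ {0}`.
-/

open Pool.Agent.Work.MP_375441_an

namespace Pool.Agent.Results.MP_375441_an.Plane

/-- **Radó's theorem for arbitrary elliptic operators in the plane.** -/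
theorem result {p : ℕ} (hp : 1 ≤ p) {X : Set (Sp 2)} (hX : IsOpen X)
    {P : (Fin 2 → ℕ) → Sp 2 → ℂ} (hP : ∀ α ∈ multi 2 p, AnalyticOnNhd ℝ (P α) X)
    (hell : Ellip p P X) {O : Set (Sp 2)} (hO : IsOpen O) (hOX : O ⊆ X) {f : Sp 2 → ℂ}
    (hf : ContDiffOn ℝ ((p - 1 : ℕ) : WithTop ℕ∞) f O)
    (h : Solves p P f (O \ {x | f x = 0})) :
    Solves p P f O :=
  main_two hp hX hP hell hO hOX hf h

end Pool.Agent.Results.MP_375441_an.Plane
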