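import Pool.Agent.Work.MP_375441_an.FinB

/-!
# A Radó theorem for operators whose principal symbol has a real quadratic factor

Let `X ⊂ ℝⁿ` be open, `n` arbitrary, and let `P = ∑_{|α| ≤ p} P_α(x) D^α` be a linear differential
operator of order `p ≥ 2` on `X` with smooth complex-valued coefficients, whose principal symbol is
a product `a(x, z) · r(x, z)`, where `a(x, z) = ∑ a_{ij}(x) z_i z_j` is a positive definite quadratic
form with smooth real coefficients and `r(x, z) = ∑_{|β| = p - 2} r_β(x) z^β` has smooth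
complex coefficients. Let `O ⊂ X` be open and `f ∈ C^{p-1}(O)`. If `Pf = 0` on `O ∖ Z(f)` in the
sense of distributions, then `Pf = 0` on `O`.

The definitions are in `Pool.Agent.Work.MP_375441_an.Defs`:

* `Sp n` is `ℝⁿ`;
* `DD j g = (1/√-1) ∂g/∂x_j` and `Dpow α g = D^α g`;
* `multi n p` is the set of the multi-indices with `|α| ≤ p`;
* `transp p P φ = ∑_{|α| ≤ p} (-1)^{|α|} D^α (P_α φ)`;
* `Solves p P f U` says that `∫ f · ᵗPφ = 0` for every `φ ∈ C_c^∞(U)`.
-/

open Pool.Agent.Work.MP_375441_an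
open scoped ContDiff

namespace Pool.Agent.Results.MP_375441_an.QuadFactor

/-- **Radó's theorem for operators whose principal symbol has a positive definite real quadratic
factor**, in every dimension. -/
theorem result {n p : ℕ} (hp : 2 ≤ p) {X : Set (Sp n)} (hX : IsOpen X)
    {P : (Fin n → ℕ) → Sp n → ℂ} (hP : ∀ α ∈ multi n p, ContDiffOn ℝ ∞ (P α) X)
    {a : Fin n → Fin n → Sp n → ℝ} (ha : ∀ i j, ContDiffOn ℝ ∞ (a i j) X)
    (hpos : ∀ x ∈ X, ∀ ξ : Fin n → ℝ, ξ ≠ 0 → 0 < ∑ i, ∑ j, a i j x * ξ i * ξ j)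
    {r : (Fin n → ℕ) → Sp n → ℂ} (hr : ∀ β ∈ multi n (p - 2), ContDiffOn ℝ ∞ (r β) X)
    (hfac : ∀ x ∈ X, ∀ z : Fin n → ℝ,
      ∑ α ∈ (multi n p).filter (fun α => ∑ i, α i = p), P α x * ∏ i, (z i : ℂ) ^ α i =
      (∑ i, ∑ j, (a i j x : ℂ) * z i * z j) *
        ∑ β ∈ (multi n (p - 2)).filter (fun β => ∑ i, β i = p - 2),
          r β x * ∏ i, (z i : ℂ) ^ β i)
    {O : Set (Sp n)} (hO : IsOpen O) (hOX : O ⊆ X) {f : Sp n → ℂ}
    (hf : ContDiffOn ℝ ((p - 1 : ℕ) : WithTop ℕ∞) f O)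
    (h : Solves p P f (O \ {x | f x = 0})) :
    Solves p P f O :=
  main_B hp hX hP ha hpos hr hfac hO hOX hf h

end Pool.Agent.Results.MP_375441_an.QuadFactor
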